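import Pool.Agent.H32.RotWalk

set_option autoImplicit false

namespace Pool.Agent.Results.MP_c5a801_co.AllTransient

open Pool.Agent.H32.RotWalk

/-- There are an infinite connected locally finite simple graph and a rotor mechanism on it for
which every rotor walk, from every configuration and start, visits every vertex finitely often. -/
theorem result : ∃ (V : Type) (_ : DecidableEq V) (H : SimpleGraph V) (nxt : V → V → V),
    Infinite V ∧ H.Connected ∧ (∀ v, (H.neighborSet v).Finite) ∧ IsMechanism H nxt ∧
    ∀ (r0 : V → V), (∀ v, H.Adj v (r0 v)) → ∀ x0 v : V,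
      {t : ℕ | (walk nxt r0 x0 t).1 = v}.Finite :=
  ⟨W, inferInstance, G, nx, inferInstance, conn, nb_finite, mech,
    fun r0 _ x0 v => transient r0 x0 v⟩

end Pool.Agent.Results.MP_c5a801_co.AllTransient
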